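import Mathlib

/-! The boundary independence number is at most the order minus the minimum degree. -/

namespace Pool.Agent.Results.MP_8bdd73_co.OrderMinusMinDegree

open Finset

variable {V : Type*}

/-- eccentricity of a vertex in its component (unreachable vertices have `dist = 0`) -/
noncomputable def ecc [Fintype V] (G : SimpleGraph V) (v : V) : ℕ :=
  Finset.univ.sup (fun u => G.dist v u)

open Classical in
/-- broadcasts: value 1 on isolated vertices, value at most the eccentricity elsewhere -/
def IsBroadcast [Fintype V] (G : SimpleGraph V) (f : V → ℕ) : Prop :=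
  ∀ v, if (∀ u, ¬ G.Adj v u) then f v = 1 else f v ≤ ecc G v

/-- the ball of the vertices hearing `v` -/
def ball (G : SimpleGraph V) (f : V → ℕ) (v : V) : Set V := {x | G.Reachable v x ∧ G.dist v x ≤ f v}

/-- the boundary of that ball -/
def bdry (G : SimpleGraph V) (f : V → ℕ) (v : V) : Set V := {x | G.Reachable v x ∧ G.dist v x = f v}

/-- boundary independent broadcasts -/
def BNIndep (G : SimpleGraph V) (f : V → ℕ) : Prop :=
  ∀ u v, u ≠ v → 0 < f u → 0 < f v → ball G f u ∩ ball G f v ⊆ bdry G f u ∩ bdry G f v

/-- the boundary independence number -/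
noncomputable def alphaBn [Fintype V] (G : SimpleGraph V) : ℕ :=
  sSup {w | ∃ f : V → ℕ, IsBroadcast G f ∧ BNIndep G f ∧ ∑ v, f v = w}

theorem exists_pred (G : SimpleGraph V) (v x : V) (j : ℕ) (hr : G.Reachable v x)
    (h : G.dist v x = j + 1) : ∃ y, G.Reachable v y ∧ G.dist v y = j := by
  obtain ⟨p, hp⟩ := hr.symm.exists_walk_length_eq_dist
  rw [SimpleGraph.dist_comm, h] at hp
  cases p with
  | nil => simp at hp
  | cons hadj q =>
    rename_i y
    rw [SimpleGraph.Walk.length_cons] at hp
    refine ⟨y, q.reachable.symm, ?_⟩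
    have h1 : G.dist v y ≤ j := by
      rw [SimpleGraph.dist_comm]
      have := SimpleGraph.dist_le q
      omega
    have h2 : G.dist v x ≤ G.dist v y + 1 := by
      obtain ⟨r, hr'⟩ := q.reachable.symm.exists_walk_length_eq_dist
      have := SimpleGraph.dist_le (r.concat hadj.symm)
      rw [SimpleGraph.Walk.length_concat, hr'] at this
      exact this
    omega

theorem exists_level (G : SimpleGraph V) (v : V) : ∀ (d : ℕ) (x : V), G.Reachable v x →
    G.dist v x = d → ∀ j ≤ d, ∃ y, G.Reachable v y ∧ G.dist v y = j := by
  intro d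
  induction d with
  | zero =>
    intro x hx hd j hj
    exact ⟨x, hx, by omega⟩
  | succ d ih =>
    intro x hx hd j hj
    by_cases hjd : j = d + 1
    · exact ⟨x, hx, by omega⟩
    · obtain ⟨y, hy1, hy2⟩ := exists_pred G v x d hx hd
      exact ih y hy1 hy2 j (by omega)

theorem exists_level_le [Fintype V] (G : SimpleGraph V) (v : V) (j : ℕ) (hj : j ≤ ecc G v) :
    ∃ y, G.Reachable v y ∧ G.dist v y = j := by
  by_cases h0 : ecc G v = 0
  · exact ⟨v, SimpleGraph.Reachable.refl v, by rw [SimpleGraph.dist_self]; omega⟩
  · obtain ⟨x, _, hx⟩ := Finset.exists_mem_eq_sup (Finset.univ : Finset V) ⟨v, Finset.mem_univ v⟩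
      (fun u => G.dist v u)
    have hx' : G.dist v x = ecc G v := hx.symm
    have hr : G.Reachable v x := by
      by_contra hcon
      rw [SimpleGraph.dist_eq_zero_of_not_reachable hcon] at hx'
      omega
    exact exists_level G v _ x hr hx' j hj

theorem main [Fintype V] (G : SimpleGraph V) [DecidableRel G.Adj] (f : V → ℕ)
    (hf : IsBroadcast G f) (hb : BNIndep G f) : ∑ v, f v + G.minDegree ≤ Fintype.card V := by
  classical
  -- interiors of the balls
  set I : V → Finset V := fun v => univ.filter (fun x => G.Reachable v x ∧ G.dist v x < f v) with hI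
  have hmem : ∀ v x, x ∈ I v ↔ (G.Reachable v x ∧ G.dist v x < f v) := by
    intro v x; simp [hI]
  have hdis : ∀ u ∈ (univ : Finset V), ∀ v ∈ (univ : Finset V), u ≠ v → Disjoint (I u) (I v) := by
    intro u _ v _ huv
    rw [Finset.disjoint_left]
    intro x hxu hxv
    rw [hmem] at hxu hxv
    have := (hb u v huv (by omega) (by omega) ⟨⟨hxu.1, hxu.2.le⟩, ⟨hxv.1, hxv.2.le⟩⟩).1
    have := this.2
    omega
  have hsum : ∑ v, (I v).card = (univ.biUnion I).card := (Finset.card_biUnion hdis).symm
  -- the value is at most the eccentricity unless the vertex is isolated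
  have hlev : ∀ v, ∀ j < f v, ∃ y, y ∈ I v ∧ G.dist v y = j := by
    intro v j hj
    have h := hf v
    split_ifs at h with hiso
    · refine ⟨v, ?_, ?_⟩
      · rw [hmem, SimpleGraph.dist_self]; exact ⟨SimpleGraph.Reachable.refl v, by omega⟩
      · rw [SimpleGraph.dist_self]; omega
    · obtain ⟨y, hy1, hy2⟩ := exists_level_le G v j (by omega)
      exact ⟨y, by rw [hmem]; exact ⟨hy1, by omega⟩, hy2⟩
  have hfib : ∀ v, (I v).card = ∑ j ∈ range (f v), ((I v).filter (fun x => G.dist v x = j)).card := by
    intro v
    apply Finset.card_eq_sum_card_fiberwise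
    intro x hx
    have hx' : x ∈ I v := hx
    rw [hmem] at hx'
    simpa using hx'.2
  have hone : ∀ v, ∀ j ∈ range (f v), 1 ≤ ((I v).filter (fun x => G.dist v x = j)).card := by
    intro v j hj
    rw [mem_range] at hj
    obtain ⟨y, hy1, hy2⟩ := hlev v j hj
    exact Finset.card_pos.2 ⟨y, by rw [mem_filter]; exact ⟨hy1, hy2⟩⟩
  have hge : ∀ v, f v ≤ (I v).card := by
    intro v
    rw [hfib]
    calc f v = ∑ j ∈ range (f v), 1 := by simp
      _ ≤ _ := Finset.sum_le_sum (hone v)
  have hmin : ∀ v, G.minDegree ≤ (univ.filter (fun x => G.Adj v x)).card := by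
    intro v
    refine le_trans (G.minDegree_le_degree v) (le_of_eq ?_)
    rw [← SimpleGraph.card_neighborFinset_eq_degree]
    congr 1
    ext x
    simp
  by_cases hbig : ∃ v, 2 ≤ f v
  · obtain ⟨v, hv⟩ := hbig
    -- a boundary vertex
    obtain ⟨b, hb1, hb2⟩ : ∃ b, G.Reachable v b ∧ G.dist v b = f v := by
      have h := hf v
      split_ifs at h with hiso
      · omega
      · exact exists_level_le G v (f v) h
    have hbn : b ∉ univ.biUnion I := by
      rw [Finset.mem_biUnion]
      rintro ⟨w, _, hw⟩
      rw [hmem] at hw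
      by_cases hwv : w = v
      · subst hwv; omega
      · have := (hb w v hwv (by omega) (by omega) ⟨⟨hw.1, hw.2.le⟩, ⟨hb1, hb2.le⟩⟩).1.2
        omega
    have hlt : (univ.biUnion I).card + 1 ≤ Fintype.card V := by
      have := Finset.card_lt_card (Finset.ssubset_univ_iff.2 (show univ.biUnion I ≠ univ by
        intro he; rw [he] at hbn; exact hbn (Finset.mem_univ b)))
      rw [Finset.card_univ] at this
      exact this
    have hv1 : G.minDegree ≤ ((I v).filter (fun x => G.dist v x = 1)).card := by
      refine le_trans (hmin v) (Finset.card_le_card ?_)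
      intro x hx
      rw [mem_filter] at hx ⊢
      have h1 : G.dist v x = 1 := SimpleGraph.dist_eq_one_iff_adj.2 hx.2
      exact ⟨by rw [hmem]; exact ⟨hx.2.reachable, by omega⟩, h1⟩
    have hIv : f v + G.minDegree ≤ (I v).card + 1 := by
      rw [hfib v]
      have h1m : 1 ∈ range (f v) := mem_range.2 (by omega)
      rw [← Finset.add_sum_erase _ _ h1m]
      have h2 : ∑ j ∈ (range (f v)).erase 1, 1 ≤
          ∑ j ∈ (range (f v)).erase 1, ((I v).filter (fun x => G.dist v x = j)).card :=
        Finset.sum_le_sum (fun j hj => hone v j (Finset.mem_of_mem_erase hj))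
      rw [Finset.sum_const, smul_eq_mul, mul_one, Finset.card_erase_of_mem h1m, card_range] at h2
      omega
    have hs : ∑ w, f w + G.minDegree ≤ ∑ w, (I w).card + 1 := by
      rw [← Finset.add_sum_erase _ _ (Finset.mem_univ v),
        ← Finset.add_sum_erase (univ : Finset V) (fun w => (I w).card) (Finset.mem_univ v)]
      have : ∑ w ∈ univ.erase v, f w ≤ ∑ w ∈ univ.erase v, (I w).card :=
        Finset.sum_le_sum (fun w _ => hge w)
      omega
    omega
  · push Not at hbig
    by_cases hpos : ∃ v, f v = 1
    · obtain ⟨v, hv⟩ := hpos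
      have hsub : Disjoint (univ.filter (fun x => G.Adj v x)) (univ.filter (fun w => f w = 1)) := by
        rw [Finset.disjoint_left]
        intro x hx hx1
        rw [mem_filter] at hx hx1
        have h1 : G.dist v x = 1 := SimpleGraph.dist_eq_one_iff_adj.2 hx.2
        have := (hb v x hx.2.ne (by omega) (by omega)
          ⟨⟨hx.2.reachable, by omega⟩, ⟨SimpleGraph.Reachable.refl x, by
            rw [SimpleGraph.dist_self]; omega⟩⟩).2.2
        rw [SimpleGraph.dist_self] at this
        omega
      have hs : ∑ w, f w = (univ.filter (fun w => f w = 1)).card := by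
        rw [Finset.card_filter]
        apply Finset.sum_congr rfl
        intro w _
        have := hbig w
        split_ifs with h
        · exact h
        · omega
      rw [hs]
      have hc := Finset.card_le_univ (univ.filter (fun x => G.Adj v x) ∪ univ.filter (fun w => f w = 1))
      rw [Finset.card_union_of_disjoint hsub] at hc
      have := hmin v
      omega
    · push Not at hpos
      have hs : ∑ w, f w = 0 := by
        apply Finset.sum_eq_zero
        intro w _
        have := hbig w
        have := hpos w
        omega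
      rw [hs, zero_add]
      by_cases hne : Nonempty V
      · obtain ⟨v⟩ := hne
        exact le_trans (hmin v) (Finset.card_le_univ _)
      · rw [not_nonempty_iff] at hne
        rw [SimpleGraph.minDegree_of_subsingleton]
        exact Nat.zero_le _

/-- Every finite graph `G` satisfies `α_bn(G) ≤ n - δ(G)`. -/
theorem result {V : Type*} [Fintype V] (G : SimpleGraph V) [DecidableRel G.Adj] :
    alphaBn G + G.minDegree ≤ Fintype.card V := by
  have h0 : G.minDegree ≤ Fintype.card V := by
    classical
    by_cases hne : Nonempty V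
    · obtain ⟨v⟩ := hne
      exact le_trans (G.minDegree_le_degree v) (by
        rw [← SimpleGraph.card_neighborFinset_eq_degree]; exact Finset.card_le_univ _)
    · rw [not_nonempty_iff] at hne
      rw [SimpleGraph.minDegree_of_subsingleton]
      exact Nat.zero_le _
  have h1 : alphaBn G ≤ Fintype.card V - G.minDegree := by
    unfold alphaBn
    rcases Set.eq_empty_or_nonempty {w | ∃ f : V → ℕ, IsBroadcast G f ∧ BNIndep G f ∧ ∑ v, f v = w}
      with h | h
    · rw [h]; simp
    · apply csSup_le h
      rintro w ⟨f, hf, hb, rfl⟩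
      have := main G f hf hb
      omega
  omega

end Pool.Agent.Results.MP_8bdd73_co.OrderMinusMinDegree
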